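import Mathlib
import Pool.Agent.H388SL.DobC
import Pool.Agent.H389R3.LR5

/-!
# Lehmer's problem and conjugates of complex conjugation: the core estimate
-/

set_option autoImplicit false

open Finset Polynomial Module

namespace Pool.Agent.K4H76.Leh

open Pool.Agent.H388SL Pool.Agent.H389R3.LR

/-- numerical part -/
lemma numeric {c C : ℝ} (hc : 0 < c) (hC : 0 < C) {D m : ℕ} (hD : 1 ≤ D) (hm : 1 ≤ m) {A P : ℝ}
    (hP : (D : ℝ) ≤ m * P)
    (h1 : min (P ^ 2 / D) (P ^ 4 / ((D : ℝ) ^ 2 * Real.log (2 * D))) ≤ C * A)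
    (h2 : c / (Real.log (2 * D)) ^ 3 ≤ A) :
    min (c / 8) (1 / (5 * C)) * D / ((m : ℝ) ^ 2 * (Real.log (2 * m)) ^ 2) ≤ A := by
  have hD1 : (1:ℝ) ≤ D := by exact_mod_cast hD
  have hm1 : (1:ℝ) ≤ m := by exact_mod_cast hm
  have hD0 : (0:ℝ) < D := by linarith
  have hm0 : (0:ℝ) < m := by linarith
  have hlog2 := Real.log_two_gt_d9
  set μ := Real.log (2 * m) with hμ
  set l := Real.log (2 * D) with hl
  have hμ2 : (0.69:ℝ) ≤ μ := by
    have : Real.log 2 ≤ μ := Real.log_le_log (by norm_num) (by linarith)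
    linarith
  have hl2 : (0.69:ℝ) ≤ l := by
    have : Real.log 2 ≤ l := Real.log_le_log (by norm_num) (by linarith)
    linarith
  have hμ0 : 0 < μ := by linarith
  have hl0 : 0 < l := by linarith
  have hP0 : 0 < P := by
    by_contra h
    push Not at h
    nlinarith
  have hPD : (D:ℝ) / m ≤ P := by
    rw [div_le_iff₀ hm0]
    linarith
  have hDm0 : 0 < (D:ℝ) / m := by positivity
  rw [div_le_iff₀ (by positivity)]
  have hk0 : 0 < min (c / 8) (1 / (5 * C)) := lt_min (by positivity) (by positivity)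
  by_cases hcase : (D:ℝ) * μ ≤ (m:ℝ) ^ 2
  · -- small `D`
    have h3 : l ≤ 2 * μ := by
      have h4 : 2 * (D:ℝ) ≤ (2 * m) ^ 2 := by
        nlinarith
      have h5 := Real.log_le_log (by positivity) h4
      rw [Real.log_pow] at h5
      push_cast at h5
      linarith
    have h4 : l ^ 3 ≤ 8 * μ ^ 3 := by
      calc l ^ 3 ≤ (2 * μ) ^ 3 := pow_le_pow_left₀ hl0.le h3 3
        _ = _ := by ring
    have h5 : c / (8 * μ ^ 3) ≤ A := le_trans (div_le_div_of_nonneg_left hc.le (by positivity) h4) h2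
    rw [div_le_iff₀ (by positivity)] at h5
    have hA0 : 0 < A := by
      by_contra h
      push Not at h
      nlinarith [pow_pos hμ0 3]
    calc min (c / 8) (1 / (5 * C)) * D ≤ c / 8 * D := by
          apply mul_le_mul_of_nonneg_right (min_le_left _ _) hD0.le
      _ ≤ A * μ ^ 3 * D := by
          apply mul_le_mul_of_nonneg_right _ hD0.le
          linarith
      _ = (A * μ ^ 2) * (D * μ) := by ring
      _ ≤ (A * μ ^ 2) * (m:ℝ) ^ 2 := by
          apply mul_le_mul_of_nonneg_left hcase (by positivity)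
      _ = A * ((m:ℝ) ^ 2 * μ ^ 2) := by ring
  · push Not at hcase
    have h3 : 1 / 5 * (D:ℝ) / ((m:ℝ) ^ 2 * μ ^ 2) ≤ C * A := by
      refine le_trans (le_min ?_ ?_) h1
      · have h4 : ((D:ℝ) / m) ^ 2 ≤ P ^ 2 := pow_le_pow_left₀ hDm0.le hPD 2
        have h5 : ((D:ℝ) / m) ^ 2 / D ≤ P ^ 2 / D := div_le_div_of_nonneg_right h4 hD0.le
        refine le_trans ?_ h5
        have e : ((D:ℝ) / m) ^ 2 / D = D / (m:ℝ) ^ 2 := by field_simp
        rw [e, div_le_div_iff₀ (by positivity) (by positivity)]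
        have h6 : 1 / 5 ≤ μ ^ 2 := by nlinarith
        have h7 : 0 ≤ (D:ℝ) * (m:ℝ) ^ 2 := by positivity
        nlinarith
      · have h4 : ((D:ℝ) / m) ^ 4 ≤ P ^ 4 := pow_le_pow_left₀ hDm0.le hPD 4
        have h5 : ((D:ℝ) / m) ^ 4 / ((D:ℝ) ^ 2 * l) ≤ P ^ 4 / ((D:ℝ) ^ 2 * l) :=
          div_le_div_of_nonneg_right h4 (by positivity)
        refine le_trans ?_ h5
        have e : ((D:ℝ) / m) ^ 4 / ((D:ℝ) ^ 2 * l) = D ^ 2 / ((m:ℝ) ^ 4 * l) := by
          field_simp
        rw [e, div_le_div_iff₀ (by positivity) (by positivity)]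
        -- `m ^ 2 l ≤ 5 D μ ^ 2`
        have h6 : (m:ℝ) ^ 2 * l ≤ 5 * (D * μ ^ 2) := by
          have h7 : l ≤ 2 * μ + D / (m:ℝ) ^ 2 := by
            have h8 : l = Real.log (2 * (m:ℝ) ^ 2) + Real.log (D / (m:ℝ) ^ 2) := by
              rw [← Real.log_mul (by positivity) (by positivity), hl]
              congr 1
              field_simp
            have h9 : Real.log (D / (m:ℝ) ^ 2) ≤ D / (m:ℝ) ^ 2 :=
              (Real.log_le_sub_one_of_pos (by positivity)).trans (by linarith)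
            have h10 : Real.log (2 * (m:ℝ) ^ 2) ≤ 2 * μ := by
              have h11 : 2 * (m:ℝ) ^ 2 ≤ (2 * m) ^ 2 := by nlinarith
              have h12 := Real.log_le_log (by positivity) h11
              rw [Real.log_pow] at h12
              push_cast at h12
              linarith
            linarith
          have h8 : (m:ℝ) ^ 2 * l ≤ (m:ℝ) ^ 2 * (2 * μ) + D := by
            have := mul_le_mul_of_nonneg_left h7 (by positivity : (0:ℝ) ≤ (m:ℝ) ^ 2)
            have e2 : (m:ℝ) ^ 2 * (2 * μ + D / (m:ℝ) ^ 2) = (m:ℝ) ^ 2 * (2 * μ) + D := by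
              field_simp
            linarith
          have h9 : (m:ℝ) ^ 2 * (2 * μ) ≤ 2 * (D * μ ^ 2) := by nlinarith
          have h10 : (D:ℝ) ≤ 3 * (D * μ ^ 2) := by
            have : 1 ≤ 3 * μ ^ 2 := by nlinarith
            nlinarith
          linarith
        have h7 : 0 ≤ (D:ℝ) * (m:ℝ) ^ 2 := by positivity
        have h8 := mul_le_mul_of_nonneg_left h6 h7
        calc 1 / 5 * (D:ℝ) * ((m:ℝ) ^ 4 * l) = 1 / 5 * ((D:ℝ) * (m:ℝ) ^ 2 * ((m:ℝ) ^ 2 * l)) := by ring
          _ ≤ 1 / 5 * ((D:ℝ) * (m:ℝ) ^ 2 * (5 * (D * μ ^ 2))) := by linarith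
          _ = (D:ℝ) ^ 2 * ((m:ℝ) ^ 2 * μ ^ 2) := by ring
    rw [div_le_iff₀ (by positivity)] at h3
    calc min (c / 8) (1 / (5 * C)) * D ≤ 1 / (5 * C) * D := by
          apply mul_le_mul_of_nonneg_right (min_le_right _ _) hD0.le
      _ = 1 / C * (1 / 5 * D) := by ring
      _ ≤ 1 / C * (C * A * ((m:ℝ) ^ 2 * μ ^ 2)) := by
          apply mul_le_mul_of_nonneg_left h3 (by positivity)
      _ = A * ((m:ℝ) ^ 2 * μ ^ 2) := by field_simp

variable {K : Type} [Field K] [NumberField K]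

/-- `lam` in terms of the field generated by the number -/
lemma lam_gen (β : K) : lam β = finrank (IntermediateField.adjoin ℚ {β}) K *
    lam (IntermediateField.AdjoinSimple.gen ℚ β) := by
  unfold lam
  rw [sum_embeddings' β (fun z => Real.log (max 1 ‖z‖)), nsmul_eq_mul]

lemma log_max_mul (x y : ℂ) :
    Real.log (max 1 ‖x * y‖) ≤ Real.log (max 1 ‖x‖) + Real.log (max 1 ‖y‖) := by
  have h1 : (0:ℝ) < max 1 ‖x‖ := lt_of_lt_of_le one_pos (le_max_left _ _)
  have h2 : (0:ℝ) < max 1 ‖y‖ := lt_of_lt_of_le one_pos (le_max_left _ _)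
  rw [← Real.log_mul h1.ne' h2.ne']
  apply Real.log_le_log (lt_of_lt_of_le one_pos (le_max_left _ _))
  apply max_le
  · nlinarith [le_max_left 1 ‖x‖, le_max_left 1 ‖y‖]
  · rw [norm_mul]
    exact mul_le_mul (le_max_right _ _) (le_max_right _ _) (norm_nonneg _) h1.le

lemma lam_mul_le (α β : K) : lam (α * β) ≤ lam α + lam β := by
  unfold lam
  rw [← Finset.sum_add_distrib]
  refine Finset.sum_le_sum fun σ _ => ?_
  rw [map_mul]
  exact log_max_mul _ _

open Classical in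
/-- the number of embeddings at which `β` is a positive real number -/
lemma card_pos_le (β : K) :
    ((Finset.univ : Finset (K →ₐ[ℚ] ℂ)).filter (fun τ => 0 < (τ β).re ∧ (τ β).im = 0)).card ≤
      finrank (IntermediateField.adjoin ℚ {β}) K *
        (posPart (conjSet (IntermediateField.AdjoinSimple.gen ℚ β))).card := by
  rw [Finset.card_filter]
  rw [sum_embeddings' β (fun z => if 0 < z.re ∧ z.im = 0 then 1 else 0), smul_eq_mul]
  apply Nat.mul_le_mul_left
  rw [← Finset.card_filter]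
  have h1 : ((Finset.univ : Finset ((IntermediateField.adjoin ℚ {β}) →ₐ[ℚ] ℂ)).filter
      (fun τ => 0 < (τ (IntermediateField.AdjoinSimple.gen ℚ β)).re ∧
        (τ (IntermediateField.AdjoinSimple.gen ℚ β)).im = 0)).image
        (fun τ => τ (IntermediateField.AdjoinSimple.gen ℚ β)) ⊆
      posPart (conjSet (IntermediateField.AdjoinSimple.gen ℚ β)) := by
    intro z hz
    rw [Finset.mem_image] at hz
    obtain ⟨τ, hτ, rfl⟩ := hz
    rw [Finset.mem_filter] at hτ
    unfold Pool.Agent.H389R3.LR.posPart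
    rw [Finset.mem_filter]
    exact ⟨mem_conjSet.mpr ⟨τ, rfl⟩, hτ.2⟩
  refine le_trans ?_ (Finset.card_le_card h1)
  rw [Finset.card_image_of_injective _ (CInj_gen β)]

/-- **The core estimate.** -/
theorem core : ∃ c : ℝ, 0 < c ∧ ∀ (K : Type) [Field K] [NumberField K] (α α' : K),
    IsIntegral ℤ α → IsIntegral ℤ α' → α ≠ 0 → ∀ m : ℕ,
    (∃ τ : K →ₐ[ℚ] ℂ, τ α' = starRingEnd ℂ (τ α) ∧ ‖τ α‖ ≠ 1) →
    finrank ℚ K ≤ m * Nat.card {τ : K →ₐ[ℚ] ℂ // τ α' = starRingEnd ℂ (τ α)} →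
    c * finrank ℚ K / ((m : ℝ) ^ 2 * (Real.log (2 * m)) ^ 2) ≤ lam α + lam α' := by
  classical
  obtain ⟨c, hc, hdob⟩ := dob
  refine ⟨min (c / 8) (1 / (5 * 1064960)), lt_min (by positivity) (by norm_num), ?_⟩
  intro K _ _ α α' hα hα' h0 m hτ hcard
  obtain ⟨τ0, hτ1, hτ2⟩ := hτ
  set β : K := α * α' with hβ
  have hβi : IsIntegral ℤ β := hα.mul hα'
  have hval : ∀ τ : K →ₐ[ℚ] ℂ, τ α' = starRingEnd ℂ (τ α) → τ β = ((‖τ α‖ ^ 2 : ℝ) : ℂ) := by
    intro τ h
    rw [hβ, map_mul, h, Complex.mul_conj, Complex.normSq_eq_norm_sq]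
  have hτα : ∀ τ : K →ₐ[ℚ] ℂ, 0 < ‖τ α‖ := fun τ => norm_pos_iff.mpr ((map_ne_zero τ).mpr h0)
  have hβ0 : β ≠ 0 := by
    intro h
    have h1 := hval τ0 hτ1
    rw [h, map_zero] at h1
    have h2 := hτα τ0
    have h3 : ((‖τ0 α‖ ^ 2 : ℝ) : ℂ) ≠ 0 := by
      rw [Complex.ofReal_ne_zero]; positivity
    exact h3 h1.symm
  have hβroot : ∀ n : ℕ, 0 < n → β ^ n ≠ 1 := by
    intro n hn h
    have h1 := congrArg (fun x => ‖τ0 x‖) h
    simp only [map_pow, map_one, norm_pow, norm_one] at h1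
    rw [hval τ0 hτ1, Complex.norm_real, Real.norm_eq_abs, abs_of_nonneg (by positivity),
      ← pow_mul] at h1
    exact hτ2 ((pow_eq_one_iff_of_nonneg (norm_nonneg _) (by omega)).mp h1)
  set L := IntermediateField.adjoin ℚ {β} with hL
  set γ : L := IntermediateField.AdjoinSimple.gen ℚ β with hγ
  have hγβ : algebraMap L K γ = β := IntermediateField.AdjoinSimple.algebraMap_gen ℚ β
  have hinj : Function.Injective (algebraMap L K) := (algebraMap L K).injective
  have hγi : IsIntegral ℤ γ := by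
    rw [← hγβ] at hβi
    exact (isIntegral_algebraMap_iff hinj).mp hβi
  have hγ0 : γ ≠ 0 := by
    intro h
    rw [h, map_zero] at hγβ
    exact hβ0 hγβ.symm
  have hγroot : ∀ n : ℕ, 0 < n → γ ^ n ≠ 1 := by
    intro n hn h
    have h1 := congrArg (algebraMap L K) h
    rw [map_pow, hγβ, map_one] at h1
    exact hβroot n hn h1
  set D := finrank ℚ L with hD
  set w := finrank L K with hw
  have hDw : D * w = finrank ℚ K := finrank_mul_finrank ℚ L K
  have hD1 : 1 ≤ D := finrank_pos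
  have hw1 : 1 ≤ w := finrank_pos
  have hm1 : 1 ≤ m := by
    rcases Nat.eq_zero_or_pos m with h | h
    · rw [h, zero_mul] at hcard
      have : 0 < finrank ℚ K := finrank_pos
      omega
    · exact h
  set P := (posPart (conjSet γ)).card with hP
  have hS : Nat.card {τ : K →ₐ[ℚ] ℂ // τ α' = starRingEnd ℂ (τ α)} ≤ w * P := by
    refine le_trans ?_ (card_pos_le β)
    rw [Nat.card_eq_fintype_card, Fintype.card_subtype]
    apply Finset.card_le_card
    intro τ hτ
    rw [Finset.mem_filter] at hτ ⊢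
    refine ⟨Finset.mem_univ _, ?_⟩
    rw [hval τ hτ.2]
    refine ⟨?_, Complex.ofReal_im _⟩
    rw [Complex.ofReal_re]
    have := hτα τ
    positivity
  have hDP : D ≤ m * P := by
    have h1 : D * w ≤ (m * P) * w := by
      calc D * w = finrank ℚ K := hDw
        _ ≤ m * Nat.card {τ : K →ₐ[ℚ] ℂ // τ α' = starRingEnd ℂ (τ α)} := hcard
        _ ≤ m * (w * P) := Nat.mul_le_mul_left _ hS
        _ = (m * P) * w := by ring
    exact Nat.le_of_mul_le_mul_right h1 hw1
  have h1 := field_bound hγi hγ0 hγroot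
  have h2 := hdob L γ hγi hγ0 hγroot (CInj_gen β)
  have h3 := numeric hc (by norm_num : (0:ℝ) < 1064960) hD1 hm1 (A := lam γ) (P := (P : ℝ))
    (by exact_mod_cast hDP) h1 h2
  have h4 : lam β = w * lam γ := lam_gen β
  have h5 := lam_mul_le α α'
  have hw0 : (0:ℝ) < w := by exact_mod_cast hw1
  have h6 := mul_le_mul_of_nonneg_left h3 hw0.le
  rw [← h4] at h6
  refine le_trans (le_of_eq ?_) (h6.trans h5)
  have h7 : (finrank ℚ K : ℝ) = D * w := by
    rw [← hDw]; push_cast; ring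
  rw [h7]
  ring


end Pool.Agent.K4H76.Leh
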