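import Mathlib
import Pool.Agent.K4H76.Leh.Core

/-!
# Transfer to integer polynomials
-/

set_option autoImplicit false

open Finset Polynomial Module

namespace Pool.Agent.K4H76.Leh

open Pool.Agent.H388SL Pool.Agent.H389R3.LR

/-- the Mahler measure of an integer polynomial -/
noncomputable def M (f : ℤ[X]) : ℝ := (f.map (Int.castRingHom ℂ)).mahlerMeasure

lemma minpoly_eq {K : Type} [Field K] [NumberField K] {f : ℤ[X]} (hf : Irreducible f)
    (hm : f.Monic) {α : K} (hα : aeval α f = 0) : minpoly ℤ α = f := by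
  have hi : IsIntegral ℤ α := ⟨f, hm, by rw [← Polynomial.aeval_def]; exact hα⟩
  have h1 := minpoly.isIntegrallyClosed_dvd hi hα
  have h2 : Associated (minpoly ℤ α) f := (minpoly.irreducible hi).associated_of_dvd hf h1
  exact eq_of_monic_of_associated (minpoly.monic hi) hm h2

/-- `lam` and the Mahler measure -/
lemma lam_eq {K : Type} [Field K] [NumberField K] {f : ℤ[X]} (hf : Irreducible f)
    (hm : f.Monic) {α : K} (hα : aeval α f = 0) :
    f.natDegree * lam α = finrank ℚ K * Real.log (M f) := by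
  classical
  have hi : IsIntegral ℤ α := ⟨f, hm, by rw [← Polynomial.aeval_def]; exact hα⟩
  have hmin := minpoly_eq hf hm hα
  rw [lam_gen α]
  set L := IntermediateField.adjoin ℚ {α} with hL
  set γ : L := IntermediateField.AdjoinSimple.gen ℚ α with hγ
  have hγα : algebraMap L K γ = α := IntermediateField.AdjoinSimple.algebraMap_gen ℚ α
  have hinj : Function.Injective (algebraMap L K) := (algebraMap L K).injective
  have hγi : IsIntegral ℤ γ := by
    have h := hi
    rw [← hγα] at h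
    exact (isIntegral_algebraMap_iff hinj).mp h
  have hminγ : minpoly ℤ γ = f := by
    rw [← hmin, ← hγα]
    exact (minpoly.algebraMap_eq hinj γ).symm
  have hpmap : f.map (Int.castRingHom ℂ) = ∏ τ : L →ₐ[ℚ] ℂ, (X - C (τ γ)) := by
    rw [← minpoly_map_eq (CInj_gen α), minpoly.isIntegrallyClosed_eq_field_fractions' ℚ hγi, hminγ,
      Polynomial.map_map]
    rfl
  have hMM : Real.log (M f) = lam γ := by
    unfold M
    rw [hpmap]
    have h1 : (∏ τ : L →ₐ[ℚ] ℂ, (X - C (τ γ))).mahlerMeasure = ∏ τ : L →ₐ[ℚ] ℂ, max 1 ‖τ γ‖ := by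
      rw [Finset.prod_eq_multiset_prod, prod_mahlerMeasure_eq_mahlerMeasure_prod, Multiset.map_map,
        Finset.prod_eq_multiset_prod]
      congr 1
      refine Multiset.map_congr rfl fun τ _ => ?_
      rw [Function.comp_apply, mahlerMeasure_X_sub_C]
    rw [h1, Real.log_prod]
    · rfl
    · intro τ _
      have : (0:ℝ) < max 1 ‖τ γ‖ := lt_of_lt_of_le one_pos (le_max_left _ _)
      exact this.ne'
  have hfr : finrank ℚ L = f.natDegree := by
    rw [hL, IntermediateField.adjoin.finrank hi.tower_top,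
      minpoly.isIntegrallyClosed_eq_field_fractions' ℚ hi, hmin]
    exact natDegree_map_eq_of_injective (algebraMap ℤ ℚ).injective_int f
  have hDw : finrank ℚ L * finrank L K = finrank ℚ K := finrank_mul_finrank ℚ L K
  rw [hMM, ← hDw, hfr]
  push_cast
  ring

/-- There are a number field `K` and `α`, `α'` in `K` such that `α` is a zero of `f`, and
`τ α'` is the complex conjugate of `τ α` for some embedding `τ` of `K` with `|τ α| ≠ 1` and for at
least `[K : ℚ] / m` embeddings `τ` of `K` in the complex numbers. -/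
def ConjPairs (f : ℤ[X]) (m : ℕ) : Prop :=
  ∃ (K : Type) (_ : Field K) (_ : NumberField K) (α α' : K), aeval α f = 0 ∧
    (∃ τ : K →ₐ[ℚ] ℂ, τ α' = starRingEnd ℂ (τ α) ∧ ‖τ α‖ ≠ 1) ∧
    finrank ℚ K ≤ m * Nat.card {τ : K →ₐ[ℚ] ℂ // τ α' = starRingEnd ℂ (τ α)}

attribute [local instance] Polynomial.Gal.splits_ℚ_ℂ

/-- The complex conjugation in the Galois group of `f` over `ℚ`. -/
noncomputable def complexConj (f : ℤ[X]) : (f.map (Int.castRingHom ℚ)).Gal :=
  Polynomial.Gal.restrict _ ℂ (Complex.conjAe.restrictScalars ℚ)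

theorem monic_case : ∃ c : ℝ, 0 < c ∧ ∀ f : ℤ[X], Irreducible f → f.Monic → 1 < M f →
    ∀ m : ℕ, ConjPairs f m →
    c * f.natDegree / ((m : ℝ) ^ 2 * (Real.log (2 * m)) ^ 2) ≤ Real.log (M f) := by
  obtain ⟨c, hc, h⟩ := core
  refine ⟨c / 2, by positivity, ?_⟩
  rintro f hf hm hM m ⟨K, _, _, α, α', hα, ⟨τ, hτ1, hτ2⟩, hcard⟩
  have hα' : aeval α' f = 0 := by
    have h1 : τ (aeval α' f) = 0 := by
      rw [map_aevalZ, hτ1]
      have h2 : aeval (τ α) f = 0 := by rw [← map_aevalZ, hα, map_zero]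
      have h3 : aeval (starRingEnd ℂ (τ α)) f = starRingEnd ℂ (aeval (τ α) f) := by
        rw [Polynomial.aeval_def, Polynomial.aeval_def, Polynomial.hom_eval₂]
        congr 1
        exact RingHom.ext_int _ _
      rw [h3, h2, map_zero]
    exact (map_eq_zero τ).mp h1
  have hi : IsIntegral ℤ α := ⟨f, hm, by rw [← Polynomial.aeval_def]; exact hα⟩
  have hi' : IsIntegral ℤ α' := ⟨f, hm, by rw [← Polynomial.aeval_def]; exact hα'⟩
  have h0 : α ≠ 0 := by
    rintro rfl
    have h1 : f = X := by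
      have h2 : (X : ℤ[X]) ∣ f := by
        rw [X_dvd_iff]
        have h3 : aeval (0 : K) f = algebraMap ℤ K (f.coeff 0) := by
          rw [Polynomial.aeval_def, Polynomial.eval₂_at_zero]
        rw [h3] at hα
        exact (map_eq_zero_iff _ (algebraMap ℤ K).injective_int).mp hα
      exact (eq_of_monic_of_associated monic_X hm (prime_X.irreducible.associated_of_dvd hf h2)).symm
    rw [h1] at hM
    unfold M at hM
    rw [Polynomial.map_X] at hM
    have : (X : ℂ[X]).mahlerMeasure = 1 := by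
      have h := mahlerMeasure_X_sub_C 0
      simpa using h
    rw [this] at hM
    exact lt_irrefl _ hM
  have h1 := h K α α' hi hi' h0 m ⟨τ, hτ1, hτ2⟩ hcard
  have h2 := lam_eq hf hm hα
  have h3 := lam_eq hf hm hα'
  have hN : (0:ℝ) < finrank ℚ K := by exact_mod_cast (finrank_pos : 0 < finrank ℚ K)
  set Q : ℝ := (m : ℝ) ^ 2 * (Real.log (2 * m)) ^ 2 with hQ
  have h4 : (f.natDegree : ℝ) * (c * finrank ℚ K / Q) ≤
      f.natDegree * (lam α + lam α') := mul_le_mul_of_nonneg_left h1 (Nat.cast_nonneg _)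
  rw [mul_add, h2, h3] at h4
  have h5 : (finrank ℚ K : ℝ) * (c / 2 * f.natDegree / Q) ≤
      finrank ℚ K * Real.log (M f) := by
    have e : (finrank ℚ K : ℝ) * (c / 2 * f.natDegree / Q) =
      (f.natDegree : ℝ) * (c * finrank ℚ K / Q) / 2 := by ring
    rw [e]
    linarith
  exact le_of_mul_le_mul_left h5 hN

/-- From the size of the conjugacy class of the complex conjugation to `ConjPairs`. -/
theorem conjPairs_aux {f : ℤ[X]} {m : ℕ} (K : Type) [Field K] [CharZero K] [A : Algebra ℚ K]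
    [FiniteDimensional ℚ K] [IsGalois ℚ K] (κ : Gal(K/ℚ)) (φ : K →ₐ[ℚ] ℂ)
    (hcomm : ∀ x : K, φ (κ x) = starRingEnd ℂ (φ x)) (α : K) (hα : aeval (φ α) f = 0)
    (hα1 : ‖φ α‖ ≠ 1) (h : Nat.card {g : Gal(K/ℚ) // IsConj κ g} ≤ m) :
    ConjPairs f m := by
  classical
  have hA : A = DivisionRing.toRatAlgebra := Subsingleton.elim _ _
  subst hA
  have hNF : NumberField K := { to_charZero := inferInstance, to_finiteDimensional := inferInstance }
  have hroot : aeval α f = 0 := by
    have h1 : φ (aeval α f) = 0 := by rw [map_aevalZ, hα]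
    exact (map_eq_zero φ).mp h1
  refine ⟨K, inferInstance, hNF, α, κ α, hroot, ⟨φ, hcomm α, hα1⟩, ?_⟩
  have hcard : Nat.card Gal(K/ℚ) = finrank ℚ K := IsGalois.card_aut_eq_finrank ℚ K
  have horb : Nat.card (MulAction.orbit (ConjAct Gal(K/ℚ)) κ) *
      Nat.card (MulAction.stabilizer (ConjAct Gal(K/ℚ)) κ) = Nat.card Gal(K/ℚ) := by
    have h1 := MulAction.card_orbit_mul_card_stabilizer_eq_card_group (ConjAct Gal(K/ℚ)) κ
    rw [← Nat.card_eq_fintype_card, ← Nat.card_eq_fintype_card, ← Nat.card_eq_fintype_card] at h1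
    exact h1
  have horb2 : Nat.card (MulAction.orbit (ConjAct Gal(K/ℚ)) κ) ≤ m := by
    refine le_trans (le_of_eq ?_) h
    apply Nat.card_congr
    refine Equiv.subtypeEquivRight fun g => ?_
    rw [ConjAct.mem_orbit_conjAct, isConj_comm]
  have hstab : Nat.card (MulAction.stabilizer (ConjAct Gal(K/ℚ)) κ) ≤
      Nat.card {τ : K →ₐ[ℚ] ℂ // τ (κ α) = starRingEnd ℂ (τ α)} := by
    have hmem : ∀ g : MulAction.stabilizer (ConjAct Gal(K/ℚ)) κ,
        (φ.comp (ConjAct.ofConjAct g.1 : Gal(K/ℚ)).toAlgHom) (κ α) =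
          starRingEnd ℂ ((φ.comp (ConjAct.ofConjAct g.1 : Gal(K/ℚ)).toAlgHom) α) := by
      intro g
      have h1 := g.2
      rw [MulAction.mem_stabilizer_iff, ConjAct.smul_def, mul_inv_eq_iff_eq_mul] at h1
      have h2 : (ConjAct.ofConjAct g.1 : Gal(K/ℚ)) (κ α) = κ ((ConjAct.ofConjAct g.1 : Gal(K/ℚ)) α) :=
        congrArg (fun s : Gal(K/ℚ) => s α) h1
      change φ ((ConjAct.ofConjAct g.1 : Gal(K/ℚ)) (κ α)) =
        starRingEnd ℂ (φ ((ConjAct.ofConjAct g.1 : Gal(K/ℚ)) α))
      rw [h2, hcomm]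
    refine Nat.card_le_card_of_injective (fun g => ⟨_, hmem g⟩) ?_
    intro g g' hgg
    have h1 := congrArg Subtype.val hgg
    apply Subtype.ext
    have h2 : (ConjAct.ofConjAct g.1 : Gal(K/ℚ)) = ConjAct.ofConjAct g'.1 := by
      apply AlgEquiv.ext
      intro x
      have h3 := DFunLike.congr_fun h1 x
      exact φ.injective h3
    exact ConjAct.ofConjAct.injective h2
  calc finrank ℚ K = Nat.card (MulAction.orbit (ConjAct Gal(K/ℚ)) κ) *
      Nat.card (MulAction.stabilizer (ConjAct Gal(K/ℚ)) κ) := by rw [horb, hcard]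
    _ ≤ m * _ := Nat.mul_le_mul horb2 hstab

theorem conjPairs_aux2 {f : ℤ[X]} (hf0 : f ≠ 0) {m : ℕ} {K : Type} [Field K] [CharZero K]
    [A : Algebra ℚ K] [hs : IsSplittingField ℚ K (f.map (Int.castRingHom ℚ))] (κ : Gal(K/ℚ))
    (φ : K →ₐ[ℚ] ℂ)
    (hcomm : ∀ x : K, φ (κ x) = starRingEnd ℂ (φ x)) {z : ℂ} (hz : aeval z f = 0) (hz1 : ‖z‖ ≠ 1)
    (h : Nat.card {g : Gal(K/ℚ) // IsConj κ g} ≤ m) :
    ConjPairs f m := by
  classical
  have hinj : Function.Injective (Int.castRingHom ℚ) := RingHom.injective_int _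
  have hp0 : f.map (Int.castRingHom ℚ) ≠ 0 := (Polynomial.map_ne_zero_iff hinj).mpr hf0
  have hfd : FiniteDimensional ℚ K :=
    Polynomial.IsSplittingField.finiteDimensional _ (f.map (Int.castRingHom ℚ))
  have hnorm : Normal ℚ K := Normal.of_isSplittingField (f.map (Int.castRingHom ℚ))
  have hgal : IsGalois ℚ K := { }
  -- the zero `z` comes from the splitting field
  obtain ⟨α, hα⟩ : ∃ α, φ α = z := by
    have h1 : z ∈ (f.map (Int.castRingHom ℚ)).rootSet ℂ := by
      rw [Polynomial.mem_rootSet]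
      refine ⟨hp0, ?_⟩
      rw [Polynomial.aeval_def, Polynomial.eval₂_map]
      rw [Polynomial.aeval_def] at hz
      have e : (algebraMap ℚ ℂ).comp (Int.castRingHom ℚ) = algebraMap ℤ ℂ := RingHom.ext_int _ _
      rw [e]
      exact hz
    have h2 : ((f.map (Int.castRingHom ℚ)).map (algebraMap ℚ K)).Splits :=
      IsSplittingField.splits K (f.map (Int.castRingHom ℚ))
    have h3 := Polynomial.Splits.image_rootSet h2 φ
    rw [← h3] at h1
    obtain ⟨α, -, hα⟩ := h1
    exact ⟨α, hα⟩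
  exact conjPairs_aux _ κ φ hcomm α (by rw [hα]; exact hz) (by rw [hα]; exact hz1) h

theorem gen_data {F E : Type} [Field F] [Field E] [Algebra F E] (p : F[X])
    [Fact (p.map (algebraMap F E)).Splits] (χ : Gal(E/F)) :
    ∃ φ : p.SplittingField →ₐ[F] E, ∀ x, φ (Polynomial.Gal.restrict p E χ x) = χ (φ x) :=
  ⟨IsScalarTower.toAlgHom F _ E, fun x => AlgEquiv.restrictNormal_commutes χ _ x⟩

theorem conjPairs_of_class {f : ℤ[X]} (hf0 : f ≠ 0) {z : ℂ} (hz : aeval z f = 0) (hz1 : ‖z‖ ≠ 1)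
    {m : ℕ} (h : Nat.card {g : (f.map (Int.castRingHom ℚ)).Gal // IsConj (complexConj f) g} ≤ m) :
    ConjPairs f m := by
  obtain ⟨φ, hφ⟩ := gen_data (f.map (Int.castRingHom ℚ)) (Complex.conjAe.restrictScalars ℚ)
  exact @conjPairs_aux2 f hf0 m _ _ _ _ (IsSplittingField.splittingField _) (complexConj f) φ
    hφ z hz hz1 h


end Pool.Agent.K4H76.Leh
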