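import Mathlib
import Pool.Agent.K4H76.Leh.Poly

/-!
# Lehmer's problem and conjugates of Frobenius elements: the core estimate
-/

set_option autoImplicit false

open Finset Polynomial Module NumberField

namespace Pool.Agent.K4H76.Leh

open Pool.Agent.H388SL Pool.Agent.H389R3.LR

/-- numerical part -/
lemma numericF {c : ℝ} (hc : 0 < c) {D m e a : ℕ} (hD : 1 ≤ D) (hm : 1 ≤ m) (he : 1 ≤ e) {A lp : ℝ}
    (hlp : Real.log 2 ≤ lp) (hP : D ≤ m * a)
    (h1 : (a : ℝ) * (a - 1) * lp ≤ e * (2 * D * A + D + D * Real.log D))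
    (h2 : c / (Real.log (2 * D)) ^ 3 ≤ A) :
    min (c / 100000) (1 / 100) * D / ((e : ℝ) * (m : ℝ) ^ 2 * (Real.log (2 * (e * m))) ^ 4) ≤ A := by
  have hD1 : (1:ℝ) ≤ D := by exact_mod_cast hD
  have hm1 : (1:ℝ) ≤ m := by exact_mod_cast hm
  have he1 : (1:ℝ) ≤ e := by exact_mod_cast he
  have hD0 : (0:ℝ) < D := by linarith
  have hm0 : (0:ℝ) < m := by linarith
  have he0 : (0:ℝ) < e := by linarith
  have hlog2 := Real.log_two_gt_d9
  have hlog2' := Real.log_two_lt_d9
  have hem : (1:ℝ) ≤ e * m := by nlinarith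
  set μ := Real.log (2 * (e * m)) with hμ
  set l := Real.log (2 * D) with hl
  set Q : ℝ := (e : ℝ) * (m : ℝ) ^ 2 with hQ
  have hμ1 : Real.log 2 ≤ μ := Real.log_le_log (by norm_num) (by linarith)
  have hμ2 : (0.69:ℝ) ≤ μ := by linarith
  have hl2 : (0.69:ℝ) ≤ l := by
    have : Real.log 2 ≤ l := Real.log_le_log (by norm_num) (by linarith)
    linarith
  have hμ0 : 0 < μ := by linarith
  have hl0 : 0 < l := by linarith
  have hQ1 : 1 ≤ Q := by
    have : 1 ≤ (m:ℝ) ^ 2 := one_le_pow₀ hm1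
    rw [hQ]; nlinarith
  have hQ0 : 0 < Q := by linarith
  have h2Q : Real.log (2 * Q) ≤ 2 * μ := by
    have h3 : 2 * Q ≤ (2 * (e * m)) ^ 2 := by
      rw [hQ]
      have : 0 ≤ (e:ℝ) * m ^ 2 := by positivity
      have h4 : (2 * ((e:ℝ) * m)) ^ 2 = 4 * e * (e * m ^ 2) := by ring
      rw [h4]
      nlinarith
    have h5 := Real.log_le_log (by positivity) h3
    rw [Real.log_pow] at h5
    push_cast at h5
    linarith
  rw [div_le_iff₀ (by positivity)]
  by_cases hcase : (D:ℝ) ≤ 100 * (Q * μ)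
  · have h3 : l ≤ 10 * μ := by
      have h4 : l ≤ Real.log (100 * (2 * Q * μ)) := Real.log_le_log (by positivity) (by nlinarith)
      have h5 : Real.log (100 * (2 * Q * μ)) = Real.log 100 + (Real.log (2 * Q) + Real.log μ) := by
        rw [Real.log_mul (by norm_num) (by positivity), Real.log_mul (by positivity) (by positivity)]
      have h6 : Real.log μ ≤ μ := (Real.log_le_sub_one_of_pos hμ0).trans (by linarith)
      have h7 : Real.log 100 ≤ 7 * Real.log 2 := by
        have : Real.log 100 ≤ Real.log (2 ^ 7) := Real.log_le_log (by norm_num) (by norm_num)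
        rw [Real.log_pow] at this
        push_cast at this
        linarith
      linarith
    have h4 : l ^ 3 ≤ 1000 * μ ^ 3 := by
      calc l ^ 3 ≤ (10 * μ) ^ 3 := pow_le_pow_left₀ hl0.le h3 3
        _ = _ := by ring
    have h5 : c / (1000 * μ ^ 3) ≤ A := le_trans (div_le_div_of_nonneg_left hc.le (by positivity) h4) h2
    rw [div_le_iff₀ (by positivity)] at h5
    calc min (c / 100000) (1 / 100) * D ≤ c / 100000 * D := by
          apply mul_le_mul_of_nonneg_right (min_le_left _ _) hD0.le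
      _ ≤ c / 100000 * (100 * (Q * μ)) := mul_le_mul_of_nonneg_left hcase (by positivity)
      _ = (c / 1000) * (Q * μ) := by ring
      _ ≤ (A * μ ^ 3) * (Q * μ) := by
          apply mul_le_mul_of_nonneg_right _ (by positivity)
          linarith
      _ = A * (Q * μ ^ 4) := by ring
  · push Not at hcase
    set x := (D:ℝ) / Q with hx
    have hDx : (D:ℝ) = x * Q := by rw [hx]; field_simp
    have hx1 : 100 * μ < x := by
      rw [hx, lt_div_iff₀ hQ0]; linarith
    have hx69 : 69 ≤ x := by linarith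
    have hlogD : Real.log D ≤ Real.log x + 2 * μ := by
      rw [hDx, Real.log_mul (by linarith) hQ0.ne']
      have : Real.log Q ≤ Real.log (2 * Q) := Real.log_le_log hQ0 (by linarith)
      linarith
    have hlogx : Real.log x ≤ 3.2 + x / 64 := by
      have h3 : Real.log x = Real.log 64 + Real.log (x / 64) := by
        rw [← Real.log_mul (by norm_num) (by positivity)]
        congr 1
        field_simp
      have h4 : Real.log (x / 64) ≤ x / 64 - 1 := Real.log_le_sub_one_of_pos (by positivity)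
      have h5 : Real.log 64 = 6 * Real.log 2 := by
        rw [show (64:ℝ) = 2 ^ 6 by norm_num, Real.log_pow]; norm_num
      linarith
    have ha : (D:ℝ) / m ≤ a := by
      rw [div_le_iff₀ hm0]
      exact_mod_cast (by rw [mul_comm] at hP; exact hP : D ≤ a * m)
    have ha2 : (2:ℝ) ≤ a := by
      refine le_trans ?_ ha
      rw [le_div_iff₀ hm0, hDx, hQ]
      have h3 : (m:ℝ) ≤ e * m ^ 2 := by nlinarith
      nlinarith
    have h3 : ((D:ℝ) / m) ^ 2 / 2 * Real.log 2 ≤ e * (2 * D * A + D + D * Real.log D) := by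
      refine le_trans ?_ h1
      have h4 : ((D:ℝ) / m) ^ 2 / 2 ≤ a * (a - 1) := by
        have h5 : ((D:ℝ) / m) ^ 2 ≤ (a:ℝ) ^ 2 := pow_le_pow_left₀ (by positivity) ha 2
        nlinarith
      exact mul_le_mul h4 hlp (by linarith) (by nlinarith)
    have h4 : x * Real.log 2 / 2 ≤ 2 * A + 1 + Real.log D := by
      have e1 : ((D:ℝ) / m) ^ 2 / 2 * Real.log 2 = (e * D) * (x * Real.log 2 / 2) := by
        rw [hx, hQ]
        field_simp
      have e2 : e * (2 * D * A + D + D * Real.log D) = (e * D) * (2 * A + 1 + Real.log D) := by ring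
      rw [e1, e2] at h3
      exact le_of_mul_le_mul_left h3 (by positivity)
    have h5 : 0.08 * x ≤ A := by nlinarith
    calc min (c / 100000) (1 / 100) * D ≤ 1 / 100 * D := by
          apply mul_le_mul_of_nonneg_right (min_le_right _ _) hD0.le
      _ = 1 / 100 * x * Q := by rw [hDx]; ring
      _ ≤ (0.08 * x * μ ^ 4) * Q := by
          apply mul_le_mul_of_nonneg_right _ hQ0.le
          have h6 : (0.69:ℝ) ^ 4 ≤ μ ^ 4 := pow_le_pow_left₀ (by norm_num) hμ2 4
          have h7 : (0.2:ℝ) ≤ μ ^ 4 := by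
            refine le_trans ?_ h6
            norm_num
          nlinarith
      _ ≤ (A * μ ^ 4) * Q := by
          apply mul_le_mul_of_nonneg_right _ hQ0.le
          exact mul_le_mul_of_nonneg_right h5 (by positivity)
      _ = A * (Q * μ ^ 4) := by ring

section place

variable {K : Type} [Field K] [NumberField K] (v : FinitePlace K)

lemma v_le_one {x : K} (hx : IsIntegral ℤ x) : v x ≤ 1 := by
  have h := FinitePlace.norm_le_one K v.maximalIdeal (⟨x, hx⟩ : 𝓞 K)
  have h2 : ‖FinitePlace.embedding (v.maximalIdeal) (algebraMap (𝓞 K) K ⟨x, hx⟩)‖ = v x := by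
    rw [FinitePlace.norm_embedding_eq]
    rfl
  rw [h2] at h
  exact h

lemma v_sub_le (x y : K) : v (x - y) ≤ max (v x) (v y) := by
  rw [sub_eq_add_neg]
  refine (FinitePlace.add_le v x (-y)).trans ?_
  rw [map_neg_eq_map]

/-- a nonzero natural number that is small at `v` is large -/
lemma nat_large {p : ℕ} (hp : p.Prime) (hvp : v (p : K) < 1) {e k n : ℕ} (hn : n ≠ 0)
    (h : v (n : K) ^ e ≤ v (p : K) ^ k) : (p : ℝ) ^ k ≤ (n : ℝ) ^ e := by
  have hvp0 : 0 < v (p : K) := FinitePlace.pos_iff.mpr (by exact_mod_cast hp.ne_zero)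
  obtain ⟨j, u, hnu, hju⟩ := Nat.exists_eq_pow_mul_and_not_dvd hn p hp.ne_one
  have hvi : ∀ a : ℤ, v (a : K) ≤ 1 := fun a =>
    v_le_one v (isIntegral_algebraMap (R := ℤ) (A := K) (x := a))
  have hvu : v (u : K) = 1 := by
    apply le_antisymm
    · exact_mod_cast hvi (u : ℤ)
    · by_contra hcon
      push Not at hcon
      have hcop : IsCoprime (p : ℤ) (u : ℤ) := by
        rw [Nat.isCoprime_iff_coprime]
        exact (Nat.Prime.coprime_iff_not_dvd hp).mpr hnu
      obtain ⟨a, b, hab⟩ := hcop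
      have h1 : (1 : K) = (a : K) * (p : K) - (-(b : K) * (u : K)) := by
        have := congrArg (Int.cast (R := K)) hab
        push_cast at this
        rw [← this]; ring
      have h2 : v (1 : K) ≤ max (v ((a : K) * (p : K))) (v (-(b : K) * (u : K))) := by
        conv_lhs => rw [h1]
        exact v_sub_le v _ _
      rw [map_one, map_mul, map_mul, map_neg_eq_map] at h2
      have h3 := hvi a
      have h4 := hvi b
      have h7 := apply_nonneg v (a : K)
      have h8 := apply_nonneg v (b : K)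
      have h9 := apply_nonneg v (u : K)
      have h5 : v (a : K) * v (p : K) < 1 := by nlinarith
      have h6 : v (b : K) * v (u : K) < 1 := by nlinarith
      exact absurd h2 (not_le.mpr (max_lt h5 h6))
  have hvn : v (n : K) = v (p : K) ^ j := by
    rw [hju]
    push_cast
    rw [map_mul, map_pow, hvu, mul_one]
  rw [hvn, ← pow_mul] at h
  have hk : k ≤ j * e := by
    by_contra hcon
    push Not at hcon
    exact absurd h (not_le.mpr (pow_lt_pow_right_of_lt_one₀ hvp0 hvp hcon))
  have hp1 : (1:ℝ) ≤ p := by exact_mod_cast hp.one_lt.le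
  calc (p : ℝ) ^ k ≤ (p : ℝ) ^ (j * e) := pow_le_pow_right₀ hp1 hk
    _ = ((p : ℝ) ^ j) ^ e := by rw [pow_mul]
    _ ≤ (n : ℝ) ^ e := by
      apply pow_le_pow_left₀ (by positivity)
      rw [hju]
      push_cast
      have hu0 : u ≠ 0 := by
        rintro rfl
        simp at hju
        exact hn hju
      have : (1:ℝ) ≤ u := by exact_mod_cast Nat.one_le_iff_ne_zero.mpr hu0
      have hpj : (0:ℝ) < (p:ℝ) ^ j := by positivity
      nlinarith

lemma int_large {p : ℕ} (hp : p.Prime) (hvp : v (p : K) < 1) {e k : ℕ} {n : ℤ} (hn : n ≠ 0)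
    (h : v ((n : ℤ) : K) ^ e ≤ v (p : K) ^ k) : (p : ℝ) ^ k ≤ |(n : ℝ)| ^ e := by
  obtain ⟨a, rfl | rfl⟩ := Int.eq_nat_or_neg n
  · have ha : a ≠ 0 := by rintro rfl; simp at hn
    rw [Int.cast_natCast] at h ⊢
    rw [Nat.abs_cast]
    exact nat_large v hp hvp ha h
  · have ha : a ≠ 0 := by rintro rfl; simp at hn
    rw [Int.cast_neg, Int.cast_natCast] at h ⊢
    rw [map_neg_eq_map] at h
    rw [abs_neg, Nat.abs_cast]
    exact nat_large v hp hvp ha h

/-- the energy bound with `t = 1 - 1 / D` -/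
lemma energy_one {ι : Type*} [DecidableEq ι] (s : Finset ι) (z : ι → ℂ)
    (hz : ∀ i ∈ s, ∀ j ∈ s, i ≠ j → z i ≠ z j) {D : ℕ} (hD : 1 ≤ D) (hs : s.card ≤ D) {A : ℝ}
    (hA : ∑ i ∈ s, Real.log (max 1 ‖z i‖) ≤ A) :
    ∑ i ∈ s, ∑ j ∈ s, (if i = j then 0 else Real.log ‖z i - z j‖) ≤
      2 * D * A + D + D * Real.log D := by
  have hD1 : (1:ℝ) ≤ D := by exact_mod_cast hD
  have hD0 : (0:ℝ) < D := by linarith
  have hinv : 0 < 1 / (D:ℝ) := by positivity
  have hinv1 : 1 / (D:ℝ) ≤ 1 := by rw [div_le_one hD0]; exact hD1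
  have h := energy s (fun _ => 1) (fun _ _ => zero_le_one) z hz
    (t := 1 - 1 / D) (by linarith) (by linarith)
  simp only [one_mul, Finset.sum_const, nsmul_eq_mul, mul_one, one_pow] at h
  have hc : (s.card : ℝ) ≤ D := by exact_mod_cast hs
  have hc0 : (0:ℝ) ≤ s.card := Nat.cast_nonneg _
  have hA0 : 0 ≤ ∑ i ∈ s, Real.log (max 1 ‖z i‖) :=
    Finset.sum_nonneg fun i _ => Real.log_nonneg (le_max_left _ _)
  have h1 : 0 ≤ (1 - 1 / (D:ℝ)) * ‖∑ i ∈ s, ((1:ℝ):ℂ) * refl (z i)‖ ^ 2 := by
    apply mul_nonneg (by linarith) (by positivity)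
  have h2 : Real.log (2 / (1 + (1 - 1 / (D:ℝ)))) ≤ 1 / D := by
    have h3 : 0 < 1 + (1 - 1 / (D:ℝ)) := by linarith
    refine (Real.log_le_sub_one_of_pos (by positivity)).trans ?_
    rw [sub_le_iff_le_add, div_le_iff₀ h3]
    nlinarith
  have h2' : 0 ≤ Real.log (2 / (1 + (1 - 1 / (D:ℝ)))) := by
    apply Real.log_nonneg
    rw [le_div_iff₀ (by linarith)]
    linarith
  have h3 : Real.log (1 / (1 - (1 - 1 / (D:ℝ)))) = Real.log D := by
    congr 1
    field_simp
    ring
  have h4 : 0 ≤ Real.log (D:ℝ) := Real.log_nonneg hD1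
  rw [h3] at h
  have h5 : 2 * (s.card : ℝ) * (∑ i ∈ s, Real.log (max 1 ‖z i‖)) ≤ 2 * D * A := by
    apply mul_le_mul _ hA hA0 (by positivity)
    linarith
  have h6 : (s.card : ℝ) ^ 2 * Real.log (2 / (1 + (1 - 1 / (D:ℝ)))) ≤ (D:ℝ) := by
    calc (s.card : ℝ) ^ 2 * Real.log (2 / (1 + (1 - 1 / (D:ℝ)))) ≤ (D:ℝ) ^ 2 * (1 / D) := by
          apply mul_le_mul (pow_le_pow_left₀ hc0 hc 2) h2 h2' (by positivity)
      _ = (D:ℝ) := by field_simp
  have h7 : (s.card : ℝ) * Real.log D ≤ D * Real.log D := mul_le_mul_of_nonneg_right hc h4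
  linarith

end place

/-- **The discriminant of a number that is close to `1` at many conjugates.** -/
lemma disc_ineq {K : Type} [Field K] [NumberField K] [DecidableEq K] [IsGalois ℚ K]
    (v : FinitePlace K)
    {p : ℕ} (hp : p.Prime) (hvp : v (p : K) < 1) {e : ℕ}
    (he : ∀ x : 𝓞 K, v (x : K) < 1 → v (x : K) ^ e ≤ v (p : K))
    (B T : Finset K) (hB : ∀ x ∈ B, IsIntegral ℤ x) (hBσ : ∀ σ : Gal(K/ℚ), ∀ x ∈ B, σ x ∈ B)
    (hTB : T ⊆ B) (hT : ∀ x ∈ T, v (x - 1) < 1) (φ : K →ₐ[ℚ] ℂ) :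
    (T.card : ℝ) * (T.card - 1) * Real.log p ≤
      e * ∑ x ∈ B, ∑ y ∈ B, (if x = y then 0 else Real.log ‖φ x - φ y‖) := by
  classical
  set Δ : K := ∏ x ∈ B, ∏ y ∈ B, (if x = y then 1 else x - y) with hΔ
  have hΔ0 : Δ ≠ 0 := by
    rw [hΔ, Finset.prod_ne_zero_iff]
    intro x _
    rw [Finset.prod_ne_zero_iff]
    intro y _
    by_cases hxy : x = y
    · rw [if_pos hxy]; exact one_ne_zero
    · rw [if_neg hxy]; exact sub_ne_zero.mpr hxy
  have hΔi : IsIntegral ℤ Δ := by
    apply IsIntegral.prod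
    intro x hx
    apply IsIntegral.prod
    intro y hy
    by_cases hxy : x = y
    · rw [if_pos hxy]; exact isIntegral_one
    · rw [if_neg hxy]; exact (hB x hx).sub (hB y hy)
  -- invariance
  have hbij : ∀ σ : Gal(K/ℚ), B.image σ = B := by
    intro σ
    apply Finset.eq_of_subset_of_card_le
    · intro x hx
      obtain ⟨y, hy, rfl⟩ := Finset.mem_image.mp hx
      exact hBσ σ y hy
    · rw [Finset.card_image_of_injective _ σ.injective]
  have hinv : ∀ σ : Gal(K/ℚ), σ Δ = Δ := by
    intro σ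
    have hre : ∀ F : K → K, ∏ x ∈ B, F (σ x) = ∏ x ∈ B, F x := by
      intro F
      conv_rhs => rw [← hbij σ]
      rw [Finset.prod_image (fun x _ y _ h => σ.injective h)]
    rw [hΔ, map_prod]
    have h1 : ∀ x ∈ B, σ (∏ y ∈ B, (if x = y then (1:K) else x - y)) =
        ∏ y ∈ B, (if σ x = y then (1:K) else σ x - y) := by
      intro x _
      rw [map_prod, ← hre (fun y => if σ x = y then (1:K) else σ x - y)]
      refine Finset.prod_congr rfl fun y _ => ?_
      by_cases hxy : x = y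
      · rw [if_pos hxy, if_pos (by rw [hxy]), map_one]
      · rw [if_neg hxy, if_neg (fun h => hxy (σ.injective h)), map_sub]
    rw [Finset.prod_congr rfl h1]
    exact hre (fun x => ∏ y ∈ B, (if x = y then (1:K) else x - y))
  obtain ⟨n, hn⟩ : ∃ n : ℤ, (n : K) = Δ := by
    have h1 : Δ ∈ (⊥ : IntermediateField ℚ K) := (IsGalois.mem_bot_iff_fixed Δ).mpr hinv
    obtain ⟨r, hr⟩ := IntermediateField.mem_bot.mp h1
    have h2 : IsIntegral ℤ r := by
      rw [← hr] at hΔi
      exact (isIntegral_algebraMap_iff (algebraMap ℚ K).injective).mp hΔi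
    obtain ⟨n, hn⟩ := IsIntegrallyClosed.isIntegral_iff.mp h2
    refine ⟨n, ?_⟩
    rw [← hr, ← hn]
    simp
  have hn0 : n ≠ 0 := by
    rintro rfl
    rw [Int.cast_zero] at hn
    exact hΔ0 hn.symm
  -- the value at `v`
  have hvle : ∀ x ∈ B, ∀ y ∈ B, v (if x = y then 1 else x - y) ≤ 1 := by
    intro x hx y hy
    by_cases hxy : x = y
    · rw [if_pos hxy, map_one]
    · rw [if_neg hxy]; exact v_le_one v ((hB x hx).sub (hB y hy))
  have hvT : ∀ x ∈ T, ∀ y ∈ T, x ≠ y → v (x - y) ^ e ≤ v (p : K) := by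
    intro x hx y hy _
    have h1 : v (x - y) < 1 := by
      have h2 : x - y = (x - 1) - (y - 1) := by ring
      rw [h2]
      exact lt_of_le_of_lt (v_sub_le v _ _) (max_lt (hT x hx) (hT y hy))
    have h3 := he ⟨x - y, (hB x (hTB hx)).sub (hB y (hTB hy))⟩ h1
    exact h3
  have hvΔ : v Δ ^ e ≤ v (p : K) ^ (T.card * (T.card - 1)) := by
    have hw0 : ∀ x y : K, 0 ≤ v (if x = y then (1:K) else x - y) := fun x y => apply_nonneg v _
    have h1 : v Δ ≤ ∏ x ∈ T, ∏ y ∈ T, v (if x = y then (1:K) else x - y) := by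
      rw [hΔ, map_prod]
      have h2 : ∀ x ∈ B, v (∏ y ∈ B, (if x = y then (1:K) else x - y)) ≤
          ∏ y ∈ T, v (if x = y then (1:K) else x - y) := by
        intro x hx
        rw [map_prod]
        exact Finset.prod_le_prod_of_subset_of_le_one hTB (fun y _ => hw0 x y)
          (fun y hy _ => hvle x hx y hy)
      refine (Finset.prod_le_prod (fun x _ => apply_nonneg v _) h2).trans ?_
      exact Finset.prod_le_prod_of_subset_of_le_one hTB
        (fun x _ => Finset.prod_nonneg fun y _ => hw0 x y)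
        (fun x hx _ => Finset.prod_le_one (fun y _ => hw0 x y) fun y hy => hvle x hx y (hTB hy))
    calc v Δ ^ e ≤ (∏ x ∈ T, ∏ y ∈ T, v (if x = y then (1:K) else x - y)) ^ e :=
          pow_le_pow_left₀ (apply_nonneg v _) h1 e
      _ = ∏ x ∈ T, ∏ y ∈ T, v (if x = y then (1:K) else x - y) ^ e := by
          rw [← Finset.prod_pow]
          refine Finset.prod_congr rfl fun x _ => ?_
          rw [Finset.prod_pow]
      _ ≤ ∏ x ∈ T, ∏ y ∈ T, (if x = y then (1:ℝ) else v (p : K)) := by
          refine Finset.prod_le_prod (fun x _ => Finset.prod_nonneg fun y _ => pow_nonneg (hw0 x y) e) ?_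
          intro x hx
          refine Finset.prod_le_prod (fun y _ => pow_nonneg (hw0 x y) e) ?_
          intro y hy
          by_cases hxy : x = y
          · rw [if_pos hxy, if_pos hxy, map_one, one_pow]
          · rw [if_neg hxy, if_neg hxy]
            exact hvT x hx y hy hxy
      _ = ∏ x ∈ T, v (p : K) ^ (T.card - 1) := by
          refine Finset.prod_congr rfl fun x hx => ?_
          rw [← Finset.mul_prod_erase T _ hx, if_pos rfl, one_mul, ← Finset.card_erase_of_mem hx,
            ← Finset.prod_const]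
          refine Finset.prod_congr rfl fun y hy => ?_
          rw [if_neg (fun h => (Finset.ne_of_mem_erase hy) h.symm)]
      _ = v (p : K) ^ (T.card * (T.card - 1)) := by
          rw [Finset.prod_const, ← pow_mul, mul_comm]
  rw [← hn] at hvΔ
  have h3 := int_large v hp hvp hn0 hvΔ
  have hp0 : (0:ℝ) < p := by exact_mod_cast hp.pos
  have h4 := Real.log_le_log (by positivity) h3
  rw [Real.log_pow, Real.log_pow] at h4
  have h5 : Real.log |(n:ℝ)| = ∑ x ∈ B, ∑ y ∈ B, (if x = y then 0 else Real.log ‖φ x - φ y‖) := by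
    have h6 : |(n:ℝ)| = ‖φ Δ‖ := by
      rw [← hn, map_intCast, Complex.norm_intCast]
    rw [h6, hΔ, map_prod, norm_prod, Real.log_prod]
    · refine Finset.sum_congr rfl fun x _ => ?_
      rw [map_prod, norm_prod, Real.log_prod]
      · refine Finset.sum_congr rfl fun y _ => ?_
        by_cases hxy : x = y
        · rw [if_pos hxy, if_pos hxy, map_one, norm_one, Real.log_one]
        · rw [if_neg hxy, if_neg hxy, map_sub]
      · intro y _
        rw [norm_ne_zero_iff, _root_.map_ne_zero]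
        by_cases hxy : x = y
        · rw [if_pos hxy]; exact one_ne_zero
        · rw [if_neg hxy]; exact sub_ne_zero.mpr hxy
    · intro x _
      rw [norm_ne_zero_iff, _root_.map_ne_zero, Finset.prod_ne_zero_iff]
      intro y _
      by_cases hxy : x = y
      · rw [if_pos hxy]; exact one_ne_zero
      · rw [if_neg hxy]; exact sub_ne_zero.mpr hxy
  rw [h5] at h4
  refine le_trans (le_of_eq ?_) h4
  rcases Nat.eq_zero_or_pos T.card with h7 | h7
  · rw [h7]; simp
  · push_cast [Nat.cast_sub h7]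
    ring

end Pool.Agent.K4H76.Leh
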