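import Mathlib
import Pool.Agent.K4H76.Leh.Frob

/-!
# Lehmer's problem and conjugates of Frobenius elements: the main estimate
-/

set_option autoImplicit false

open Finset Polynomial Module NumberField

namespace Pool.Agent.K4H76.Leh

open Pool.Agent.H388SL Pool.Agent.H389R3.LR

lemma lam_inv_le {K : Type} [Field K] [NumberField K] {α : K} (hα : IsIntegral ℤ α) (h0 : α ≠ 0) :
    lam α⁻¹ ≤ lam α := by
  have h1 := one_le_prod_norm hα h0
  have h2 : 0 ≤ ∑ τ : K →ₐ[ℚ] ℂ, Real.log ‖τ α‖ := by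
    rw [← Real.log_prod (fun τ _ => (norm_pos_iff.mpr ((_root_.map_ne_zero τ).mpr h0)).ne')]
    exact Real.log_nonneg h1
  have h3 : lam α⁻¹ = lam α - ∑ τ : K →ₐ[ℚ] ℂ, Real.log ‖τ α‖ := by
    unfold lam
    rw [← Finset.sum_sub_distrib]
    refine Finset.sum_congr rfl fun τ _ => ?_
    have h4 : 0 < ‖τ α‖ := norm_pos_iff.mpr ((_root_.map_ne_zero τ).mpr h0)
    have h5 : (0:ℝ) < max 1 ‖τ α‖ := lt_of_lt_of_le one_pos (le_max_left _ _)
    rw [map_inv₀, norm_inv, ← Real.log_div h5.ne' h4.ne']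
    congr 1
    rw [← max_div_div_right h4.le, div_self h4.ne', max_comm, one_div]
  linarith

/-- **The core estimate for Frobenius elements.** -/
theorem coreF : ∃ c : ℝ, 0 < c ∧ ∀ (K : Type) [Field K] [NumberField K] [IsGalois ℚ K]
    (v : FinitePlace K) (p : ℕ), p.Prime → v (p : K) < 1 → ∀ e q m : ℕ, 1 ≤ e → 2 ≤ q →
    (∀ x : 𝓞 K, v (x : K) < 1 → v (x : K) ^ e ≤ v (p : K)) → ∀ α α' : K,
    IsIntegral ℤ α → IsIntegral ℤ α' → IsIntegral ℤ α'⁻¹ → α' ≠ 0 → lam α' = lam α → 0 < lam α →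
    Nat.card Gal(K/ℚ) ≤ m * Nat.card {σ : Gal(K/ℚ) // v (σ α' - σ α ^ q) < 1} →
    c * finrank ℚ K / ((e : ℝ) * (m : ℝ) ^ 2 * (Real.log (2 * (e * m))) ^ 4) ≤
      (q + 1) * lam α := by
  classical
  obtain ⟨c, hc, hdob⟩ := dob
  refine ⟨min (c / 100000) (1 / 100), lt_min (by positivity) (by norm_num), ?_⟩
  intro K _ _ _ v p hp hvp e q m he1 hq he α α' hα hα' hα'i hα'0 hlam hlampos hcard
  set β : K := α ^ q * α'⁻¹ with hβ
  have hα0 : α ≠ 0 := by
    rintro rfl
    unfold lam at hlampos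
    simp at hlampos
  have hβi : IsIntegral ℤ β := (hα.pow q).mul hα'i
  have hβ0 : β ≠ 0 := mul_ne_zero (pow_ne_zero _ hα0) (inv_ne_zero hα'0)
  have hβroot : ∀ n : ℕ, 0 < n → β ^ n ≠ 1 := by
    intro n hn h
    have h1 : α ^ (q * n) = α' ^ n := by
      rw [hβ, mul_pow, inv_pow, ← pow_mul] at h
      field_simp at h
      exact h
    have h2 : ((q * n : ℕ) : ℝ) * lam α = n * lam α' := by
      rw [← lam_pow, ← lam_pow, h1]
    rw [hlam] at h2
    push_cast at h2
    have hn' : (0:ℝ) < n := by exact_mod_cast hn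
    have hq' : (2:ℝ) ≤ q := by exact_mod_cast hq
    have h3 : 0 < (n:ℝ) * lam α := by positivity
    nlinarith
  -- the conjugates of `β`
  set B : Finset K := (Finset.univ : Finset Gal(K/ℚ)).image (fun σ => σ β) with hB
  have hBmem : ∀ x ∈ B, ∃ σ : Gal(K/ℚ), σ β = x := by
    intro x hx
    obtain ⟨σ, _, hσ⟩ := Finset.mem_image.mp hx
    exact ⟨σ, hσ⟩
  have hBi : ∀ x ∈ B, IsIntegral ℤ x := by
    intro x hx
    obtain ⟨σ, rfl⟩ := hBmem x hx
    exact hβi.map (σ : K →ₐ[ℚ] K)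
  have hBσ : ∀ σ : Gal(K/ℚ), ∀ x ∈ B, σ x ∈ B := by
    intro σ x hx
    obtain ⟨τ, rfl⟩ := hBmem x hx
    exact Finset.mem_image.mpr ⟨σ * τ, Finset.mem_univ _, rfl⟩
  set T : Finset K := B.filter (fun x => v (x - 1) < 1) with hT
  have hTB : T ⊆ B := Finset.filter_subset _ _
  have hT1 : ∀ x ∈ T, v (x - 1) < 1 := fun x hx => (Finset.mem_filter.mp hx).2
  -- the elements of `S`
  have hS : ∀ σ : Gal(K/ℚ), v (σ α' - σ α ^ q) < 1 → σ β ∈ T := by
    intro σ hσ
    rw [hT, Finset.mem_filter]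
    refine ⟨Finset.mem_image_of_mem _ (Finset.mem_univ _), ?_⟩
    have h1 : σ β - 1 = -(σ α' - σ α ^ q) * σ α'⁻¹ := by
      have h2 : σ α' ≠ 0 := (_root_.map_ne_zero σ).mpr hα'0
      rw [hβ, map_mul, map_pow, map_inv₀]
      field_simp
      ring
    rw [h1, map_mul, map_neg_eq_map]
    have h2 : v (σ α'⁻¹) ≤ 1 := v_le_one v (hα'i.map (σ : K →ₐ[ℚ] K))
    have h3 := apply_nonneg v (σ α' - σ α ^ q)
    have h4 := apply_nonneg v (σ α'⁻¹)
    nlinarith
  obtain ⟨φ⟩ : Nonempty (K →ₐ[ℚ] ℂ) := ⟨IsAlgClosed.lift⟩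
  set L := IntermediateField.adjoin ℚ {β} with hL
  set γ : L := IntermediateField.AdjoinSimple.gen ℚ β with hγ
  have hγβ : algebraMap L K γ = β := IntermediateField.AdjoinSimple.algebraMap_gen ℚ β
  have hinj : Function.Injective (algebraMap L K) := (algebraMap L K).injective
  have hγi : IsIntegral ℤ γ := by
    have h := hβi
    rw [← hγβ] at h
    exact (isIntegral_algebraMap_iff hinj).mp h
  have hγ0 : γ ≠ 0 := by
    intro h
    rw [h, map_zero] at hγβ
    exact hβ0 hγβ.symm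
  have hγroot : ∀ n : ℕ, 0 < n → γ ^ n ≠ 1 := by
    intro n hn h
    have h1 := congrArg (algebraMap L K) h
    rw [map_pow, hγβ, map_one] at h1
    exact hβroot n hn h1
  set D := finrank ℚ L with hD
  set w := finrank L K with hw
  have hDw : D * w = finrank ℚ K := finrank_mul_finrank ℚ L K
  have hD1 : 1 ≤ D := finrank_pos
  have hw1 : 1 ≤ w := finrank_pos
  -- `φ` maps `B` to the conjugates of `γ`
  have hφB : B.image φ ⊆ conjSet γ := by
    intro z hz
    obtain ⟨x, hx, rfl⟩ := Finset.mem_image.mp hz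
    obtain ⟨σ, rfl⟩ := hBmem x hx
    rw [mem_conjSet]
    exact ⟨((φ.comp (σ : K →ₐ[ℚ] K)).comp L.val), by
      change φ (σ (algebraMap L K γ)) = φ (σ β)
      rw [hγβ]⟩
  have hφinj : Function.Injective φ := φ.injective
  have hBD : B.card ≤ D := by
    calc B.card = (B.image φ).card := (Finset.card_image_of_injective _ hφinj).symm
      _ ≤ (conjSet γ).card := Finset.card_le_card hφB
      _ ≤ D := card_conjSet_le γ
  have hBlam : ∑ x ∈ B, Real.log (max 1 ‖φ x‖) ≤ lam γ := by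
    have h1 : ∑ x ∈ B, Real.log (max 1 ‖φ x‖) = ∑ z ∈ B.image φ, Real.log (max 1 ‖z‖) := by
      rw [Finset.sum_image (fun x _ y _ h => hφinj h)]
    rw [h1]
    refine (Finset.sum_le_sum_of_subset_of_nonneg hφB fun z _ _ =>
      Real.log_nonneg (le_max_left _ _)).trans ?_
    exact sum_conjSet_le γ (fun z => Real.log (max 1 ‖z‖)) fun z => Real.log_nonneg (le_max_left _ _)
  have hen := energy_one B φ (fun x _ y _ h h2 => h (hφinj h2)) hD1 hBD hBlam
  have hdisc := disc_ineq v hp hvp he B T hBi hBσ hTB hT1 φ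
  -- counting
  set a := T.card with ha
  have hSw : Nat.card {σ : Gal(K/ℚ) // v (σ α' - σ α ^ q) < 1} ≤ w * a := by
    let F : ℂ → ℕ := fun z => if z ∈ T.image φ then 1 else 0
    have h1 : ∑ τ : K →ₐ[ℚ] ℂ, F (τ β) = w * ∑ τ : L →ₐ[ℚ] ℂ, F (τ γ) := by
      rw [sum_embeddings' β F, smul_eq_mul]
    have h2 : ∑ τ : L →ₐ[ℚ] ℂ, F (τ γ) ≤ a := by
      rw [← Finset.card_filter]
      calc ((Finset.univ : Finset (L →ₐ[ℚ] ℂ)).filter (fun τ => τ γ ∈ T.image φ)).card
          = (((Finset.univ : Finset (L →ₐ[ℚ] ℂ)).filter (fun τ => τ γ ∈ T.image φ)).image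
              (fun τ => τ γ)).card := (Finset.card_image_of_injective _ (CInj_gen β)).symm
        _ ≤ (T.image φ).card := by
          apply Finset.card_le_card
          intro z hz
          obtain ⟨τ, hτ, rfl⟩ := Finset.mem_image.mp hz
          exact (Finset.mem_filter.mp hτ).2
        _ ≤ a := Finset.card_image_le
    have h3 : Nat.card {σ : Gal(K/ℚ) // v (σ α' - σ α ^ q) < 1} ≤
        ∑ τ : K →ₐ[ℚ] ℂ, F (τ β) := by
      rw [← Finset.card_filter]
      rw [Nat.card_eq_fintype_card, Fintype.card_subtype]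
      rw [← Finset.card_image_of_injective
        ((Finset.univ : Finset Gal(K/ℚ)).filter (fun σ => v (σ α' - σ α ^ q) < 1))
        (f := fun σ : Gal(K/ℚ) => φ.comp (σ : K →ₐ[ℚ] K)) ?_]
      · apply Finset.card_le_card
        intro τ hτ
        obtain ⟨σ, hσ, rfl⟩ := Finset.mem_image.mp hτ
        rw [Finset.mem_filter]
        refine ⟨Finset.mem_univ _, ?_⟩
        exact Finset.mem_image.mpr ⟨σ β, hS σ (Finset.mem_filter.mp hσ).2, rfl⟩
      · intro σ τ h
        apply AlgEquiv.ext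
        intro x
        exact hφinj (DFunLike.congr_fun h x)
    rw [h1] at h3
    exact h3.trans (Nat.mul_le_mul_left w h2)
  have hN : Nat.card Gal(K/ℚ) = finrank ℚ K := IsGalois.card_aut_eq_finrank ℚ K
  have hm1 : 1 ≤ m := by
    rcases Nat.eq_zero_or_pos m with h | h
    · rw [h, zero_mul, hN] at hcard
      have : 0 < finrank ℚ K := finrank_pos
      omega
    · exact h
  have hDa : D ≤ m * a := by
    have h1 : D * w ≤ (m * a) * w := by
      calc D * w = finrank ℚ K := hDw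
        _ = Nat.card Gal(K/ℚ) := hN.symm
        _ ≤ m * Nat.card {σ : Gal(K/ℚ) // v (σ α' - σ α ^ q) < 1} := hcard
        _ ≤ m * (w * a) := Nat.mul_le_mul_left _ hSw
        _ = (m * a) * w := by ring
    exact Nat.le_of_mul_le_mul_right h1 hw1
  have he0 : (0:ℝ) ≤ e := Nat.cast_nonneg _
  have h1 : (a : ℝ) * (a - 1) * Real.log p ≤ e * (2 * D * lam γ + D + D * Real.log D) :=
    hdisc.trans (mul_le_mul_of_nonneg_left hen he0)
  have hlp : Real.log 2 ≤ Real.log p :=
    Real.log_le_log (by norm_num) (by exact_mod_cast hp.two_le)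
  have h2 := hdob L γ hγi hγ0 hγroot (CInj_gen β)
  have h3 := numericF hc hD1 hm1 he1 (A := lam γ) hlp hDa h1 h2
  have h4 : lam β = w * lam γ := lam_gen β
  have h5 : lam β ≤ (q + 1) * lam α := by
    have h6 := lam_mul_le (α ^ q) α'⁻¹
    have h7 := lam_inv_le hα' hα'0
    rw [lam_pow] at h6
    rw [← hβ] at h6
    linarith
  have hw0 : (0:ℝ) < w := by exact_mod_cast hw1
  have h6 := mul_le_mul_of_nonneg_left h3 hw0.le
  rw [← h4] at h6
  refine le_trans (le_of_eq ?_) (h6.trans h5)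
  have h7 : (finrank ℚ K : ℝ) = D * w := by
    rw [← hDw]; push_cast; ring
  rw [h7]
  ring

end Pool.Agent.K4H76.Leh
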