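import Mathlib
import Pool.Agent.K4H76.Leh.Frob2

/-!
# Lehmer's problem and conjugates of elements of inertia groups: the core estimate
-/

set_option autoImplicit false

open Finset Polynomial Module NumberField

namespace Pool.Agent.K4H76.Leh

open Pool.Agent.H388SL Pool.Agent.H389R3.LR

/-- **The discriminant of a number with many conjugates that are close to each other.** -/
lemma disc_ineq2 {K : Type} [Field K] [NumberField K] [DecidableEq K] [IsGalois ℚ K]
    (v : FinitePlace K)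
    {p : ℕ} (hp : p.Prime) (hvp : v (p : K) < 1) {e : ℕ}
    (B T : Finset K) (hB : ∀ x ∈ B, IsIntegral ℤ x) (hBσ : ∀ σ : Gal(K/ℚ), ∀ x ∈ B, σ x ∈ B)
    (hTB : T ⊆ B) (hvT : ∀ x ∈ T, ∀ y ∈ T, x ≠ y → v (x - y) ^ e ≤ v (p : K))
    (φ : K →ₐ[ℚ] ℂ) :
    (T.card : ℝ) * (T.card - 1) * Real.log p ≤
      e * ∑ x ∈ B, ∑ y ∈ B, (if x = y then 0 else Real.log ‖φ x - φ y‖) := by
  classical
  set Δ : K := ∏ x ∈ B, ∏ y ∈ B, (if x = y then 1 else x - y) with hΔ
  have hΔ0 : Δ ≠ 0 := by
    rw [hΔ, Finset.prod_ne_zero_iff]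
    intro x _
    rw [Finset.prod_ne_zero_iff]
    intro y _
    by_cases hxy : x = y
    · rw [if_pos hxy]; exact one_ne_zero
    · rw [if_neg hxy]; exact sub_ne_zero.mpr hxy
  have hΔi : IsIntegral ℤ Δ := by
    apply IsIntegral.prod
    intro x hx
    apply IsIntegral.prod
    intro y hy
    by_cases hxy : x = y
    · rw [if_pos hxy]; exact isIntegral_one
    · rw [if_neg hxy]; exact (hB x hx).sub (hB y hy)
  -- invariance
  have hbij : ∀ σ : Gal(K/ℚ), B.image σ = B := by
    intro σ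
    apply Finset.eq_of_subset_of_card_le
    · intro x hx
      obtain ⟨y, hy, rfl⟩ := Finset.mem_image.mp hx
      exact hBσ σ y hy
    · rw [Finset.card_image_of_injective _ σ.injective]
  have hinv : ∀ σ : Gal(K/ℚ), σ Δ = Δ := by
    intro σ
    have hre : ∀ F : K → K, ∏ x ∈ B, F (σ x) = ∏ x ∈ B, F x := by
      intro F
      conv_rhs => rw [← hbij σ]
      rw [Finset.prod_image (fun x _ y _ h => σ.injective h)]
    rw [hΔ, map_prod]
    have h1 : ∀ x ∈ B, σ (∏ y ∈ B, (if x = y then (1:K) else x - y)) =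
        ∏ y ∈ B, (if σ x = y then (1:K) else σ x - y) := by
      intro x _
      rw [map_prod, ← hre (fun y => if σ x = y then (1:K) else σ x - y)]
      refine Finset.prod_congr rfl fun y _ => ?_
      by_cases hxy : x = y
      · rw [if_pos hxy, if_pos (by rw [hxy]), map_one]
      · rw [if_neg hxy, if_neg (fun h => hxy (σ.injective h)), map_sub]
    rw [Finset.prod_congr rfl h1]
    exact hre (fun x => ∏ y ∈ B, (if x = y then (1:K) else x - y))
  obtain ⟨n, hn⟩ : ∃ n : ℤ, (n : K) = Δ := by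
    have h1 : Δ ∈ (⊥ : IntermediateField ℚ K) := (IsGalois.mem_bot_iff_fixed Δ).mpr hinv
    obtain ⟨r, hr⟩ := IntermediateField.mem_bot.mp h1
    have h2 : IsIntegral ℤ r := by
      rw [← hr] at hΔi
      exact (isIntegral_algebraMap_iff (algebraMap ℚ K).injective).mp hΔi
    obtain ⟨n, hn⟩ := IsIntegrallyClosed.isIntegral_iff.mp h2
    refine ⟨n, ?_⟩
    rw [← hr, ← hn]
    simp
  have hn0 : n ≠ 0 := by
    rintro rfl
    rw [Int.cast_zero] at hn
    exact hΔ0 hn.symm
  -- the value at `v`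
  have hvle : ∀ x ∈ B, ∀ y ∈ B, v (if x = y then 1 else x - y) ≤ 1 := by
    intro x hx y hy
    by_cases hxy : x = y
    · rw [if_pos hxy, map_one]
    · rw [if_neg hxy]; exact v_le_one v ((hB x hx).sub (hB y hy))
  have hvΔ : v Δ ^ e ≤ v (p : K) ^ (T.card * (T.card - 1)) := by
    have hw0 : ∀ x y : K, 0 ≤ v (if x = y then (1:K) else x - y) := fun x y => apply_nonneg v _
    have h1 : v Δ ≤ ∏ x ∈ T, ∏ y ∈ T, v (if x = y then (1:K) else x - y) := by
      rw [hΔ, map_prod]
      have h2 : ∀ x ∈ B, v (∏ y ∈ B, (if x = y then (1:K) else x - y)) ≤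
          ∏ y ∈ T, v (if x = y then (1:K) else x - y) := by
        intro x hx
        rw [map_prod]
        exact Finset.prod_le_prod_of_subset_of_le_one hTB (fun y _ => hw0 x y)
          (fun y hy _ => hvle x hx y hy)
      refine (Finset.prod_le_prod (fun x _ => apply_nonneg v _) h2).trans ?_
      exact Finset.prod_le_prod_of_subset_of_le_one hTB
        (fun x _ => Finset.prod_nonneg fun y _ => hw0 x y)
        (fun x hx _ => Finset.prod_le_one (fun y _ => hw0 x y) fun y hy => hvle x hx y (hTB hy))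
    calc v Δ ^ e ≤ (∏ x ∈ T, ∏ y ∈ T, v (if x = y then (1:K) else x - y)) ^ e :=
          pow_le_pow_left₀ (apply_nonneg v _) h1 e
      _ = ∏ x ∈ T, ∏ y ∈ T, v (if x = y then (1:K) else x - y) ^ e := by
          rw [← Finset.prod_pow]
          refine Finset.prod_congr rfl fun x _ => ?_
          rw [Finset.prod_pow]
      _ ≤ ∏ x ∈ T, ∏ y ∈ T, (if x = y then (1:ℝ) else v (p : K)) := by
          refine Finset.prod_le_prod (fun x _ => Finset.prod_nonneg fun y _ => pow_nonneg (hw0 x y) e) ?_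
          intro x hx
          refine Finset.prod_le_prod (fun y _ => pow_nonneg (hw0 x y) e) ?_
          intro y hy
          by_cases hxy : x = y
          · rw [if_pos hxy, if_pos hxy, map_one, one_pow]
          · rw [if_neg hxy, if_neg hxy]
            exact hvT x hx y hy hxy
      _ = ∏ x ∈ T, v (p : K) ^ (T.card - 1) := by
          refine Finset.prod_congr rfl fun x hx => ?_
          rw [← Finset.mul_prod_erase T _ hx, if_pos rfl, one_mul, ← Finset.card_erase_of_mem hx,
            ← Finset.prod_const]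
          refine Finset.prod_congr rfl fun y hy => ?_
          rw [if_neg (fun h => (Finset.ne_of_mem_erase hy) h.symm)]
      _ = v (p : K) ^ (T.card * (T.card - 1)) := by
          rw [Finset.prod_const, ← pow_mul, mul_comm]
  rw [← hn] at hvΔ
  have h3 := int_large v hp hvp hn0 hvΔ
  have hp0 : (0:ℝ) < p := by exact_mod_cast hp.pos
  have h4 := Real.log_le_log (by positivity) h3
  rw [Real.log_pow, Real.log_pow] at h4
  have h5 : Real.log |(n:ℝ)| = ∑ x ∈ B, ∑ y ∈ B, (if x = y then 0 else Real.log ‖φ x - φ y‖) := by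
    have h6 : |(n:ℝ)| = ‖φ Δ‖ := by
      rw [← hn, map_intCast, Complex.norm_intCast]
    rw [h6, hΔ, map_prod, norm_prod, Real.log_prod]
    · refine Finset.sum_congr rfl fun x _ => ?_
      rw [map_prod, norm_prod, Real.log_prod]
      · refine Finset.sum_congr rfl fun y _ => ?_
        by_cases hxy : x = y
        · rw [if_pos hxy, if_pos hxy, map_one, norm_one, Real.log_one]
        · rw [if_neg hxy, if_neg hxy, map_sub]
      · intro y _
        rw [norm_ne_zero_iff, _root_.map_ne_zero]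
        by_cases hxy : x = y
        · rw [if_pos hxy]; exact one_ne_zero
        · rw [if_neg hxy]; exact sub_ne_zero.mpr hxy
    · intro x _
      rw [norm_ne_zero_iff, _root_.map_ne_zero, Finset.prod_ne_zero_iff]
      intro y _
      by_cases hxy : x = y
      · rw [if_pos hxy]; exact one_ne_zero
      · rw [if_neg hxy]; exact sub_ne_zero.mpr hxy
  rw [h5] at h4
  refine le_trans (le_of_eq ?_) h4
  rcases Nat.eq_zero_or_pos T.card with h7 | h7
  · rw [h7]; simp
  · push_cast [Nat.cast_sub h7]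
    ring


/-- **The core estimate for numbers with many conjugates close to `1`.** -/
theorem coreI : ∃ c : ℝ, 0 < c ∧ ∀ (K : Type) [Field K] [NumberField K] [IsGalois ℚ K]
    (v : FinitePlace K) (p : ℕ), p.Prime → v (p : K) < 1 → ∀ e m : ℕ, 1 ≤ e → ∀ β : K,
    IsIntegral ℤ β → β ≠ 0 → (∀ n : ℕ, 0 < n → β ^ n ≠ 1) →
    Nat.card Gal(K/ℚ) ≤ m * Nat.card {σ : Gal(K/ℚ) // v (σ β - 1) ^ e ≤ v (p : K)} →
    c * finrank ℚ K / ((e : ℝ) * (m : ℝ) ^ 2 * (Real.log (2 * (e * m))) ^ 4) ≤ lam β := by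
  classical
  obtain ⟨c, hc, hdob⟩ := dob
  refine ⟨min (c / 100000) (1 / 100), lt_min (by positivity) (by norm_num), ?_⟩
  intro K _ _ _ v p hp hvp e m he1 β hβi hβ0 hβroot hcard
  -- the conjugates of `β`
  set B : Finset K := (Finset.univ : Finset Gal(K/ℚ)).image (fun σ => σ β) with hB
  have hBmem : ∀ x ∈ B, ∃ σ : Gal(K/ℚ), σ β = x := by
    intro x hx
    obtain ⟨σ, _, hσ⟩ := Finset.mem_image.mp hx
    exact ⟨σ, hσ⟩
  have hBi : ∀ x ∈ B, IsIntegral ℤ x := by
    intro x hx
    obtain ⟨σ, rfl⟩ := hBmem x hx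
    exact hβi.map (σ : K →ₐ[ℚ] K)
  have hBσ : ∀ σ : Gal(K/ℚ), ∀ x ∈ B, σ x ∈ B := by
    intro σ x hx
    obtain ⟨τ, rfl⟩ := hBmem x hx
    exact Finset.mem_image.mpr ⟨σ * τ, Finset.mem_univ _, rfl⟩
  set T : Finset K := B.filter (fun x => v (x - 1) ^ e ≤ v (p : K)) with hT
  have hTB : T ⊆ B := Finset.filter_subset _ _
  have hT1 : ∀ x ∈ T, v (x - 1) ^ e ≤ v (p : K) := fun x hx => (Finset.mem_filter.mp hx).2
  have hvT : ∀ x ∈ T, ∀ y ∈ T, x ≠ y → v (x - y) ^ e ≤ v (p : K) := by
    intro x hx y hy _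
    have h2 : x - y = (x - 1) - (y - 1) := by ring
    have h3 := v_sub_le v (x - 1) (y - 1)
    rw [← h2] at h3
    rcases le_total (v (x - 1)) (v (y - 1)) with h | h
    · rw [max_eq_right h] at h3
      exact (pow_le_pow_left₀ (apply_nonneg v _) h3 e).trans (hT1 y hy)
    · rw [max_eq_left h] at h3
      exact (pow_le_pow_left₀ (apply_nonneg v _) h3 e).trans (hT1 x hx)
  -- the elements of `S`
  have hS : ∀ σ : Gal(K/ℚ), v (σ β - 1) ^ e ≤ v (p : K) → σ β ∈ T := by
    intro σ hσ
    rw [hT, Finset.mem_filter]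
    exact ⟨Finset.mem_image_of_mem _ (Finset.mem_univ _), hσ⟩
  obtain ⟨φ⟩ : Nonempty (K →ₐ[ℚ] ℂ) := ⟨IsAlgClosed.lift⟩
  set L := IntermediateField.adjoin ℚ {β} with hL
  set γ : L := IntermediateField.AdjoinSimple.gen ℚ β with hγ
  have hγβ : algebraMap L K γ = β := IntermediateField.AdjoinSimple.algebraMap_gen ℚ β
  have hinj : Function.Injective (algebraMap L K) := (algebraMap L K).injective
  have hγi : IsIntegral ℤ γ := by
    have h := hβi
    rw [← hγβ] at h
    exact (isIntegral_algebraMap_iff hinj).mp h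
  have hγ0 : γ ≠ 0 := by
    intro h
    rw [h, map_zero] at hγβ
    exact hβ0 hγβ.symm
  have hγroot : ∀ n : ℕ, 0 < n → γ ^ n ≠ 1 := by
    intro n hn h
    have h1 := congrArg (algebraMap L K) h
    rw [map_pow, hγβ, map_one] at h1
    exact hβroot n hn h1
  set D := finrank ℚ L with hD
  set w := finrank L K with hw
  have hDw : D * w = finrank ℚ K := finrank_mul_finrank ℚ L K
  have hD1 : 1 ≤ D := finrank_pos
  have hw1 : 1 ≤ w := finrank_pos
  -- `φ` maps `B` to the conjugates of `γ`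
  have hφB : B.image φ ⊆ conjSet γ := by
    intro z hz
    obtain ⟨x, hx, rfl⟩ := Finset.mem_image.mp hz
    obtain ⟨σ, rfl⟩ := hBmem x hx
    rw [mem_conjSet]
    exact ⟨((φ.comp (σ : K →ₐ[ℚ] K)).comp L.val), by
      change φ (σ (algebraMap L K γ)) = φ (σ β)
      rw [hγβ]⟩
  have hφinj : Function.Injective φ := φ.injective
  have hBD : B.card ≤ D := by
    calc B.card = (B.image φ).card := (Finset.card_image_of_injective _ hφinj).symm
      _ ≤ (conjSet γ).card := Finset.card_le_card hφB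
      _ ≤ D := card_conjSet_le γ
  have hBlam : ∑ x ∈ B, Real.log (max 1 ‖φ x‖) ≤ lam γ := by
    have h1 : ∑ x ∈ B, Real.log (max 1 ‖φ x‖) = ∑ z ∈ B.image φ, Real.log (max 1 ‖z‖) := by
      rw [Finset.sum_image (fun x _ y _ h => hφinj h)]
    rw [h1]
    refine (Finset.sum_le_sum_of_subset_of_nonneg hφB fun z _ _ =>
      Real.log_nonneg (le_max_left _ _)).trans ?_
    exact sum_conjSet_le γ (fun z => Real.log (max 1 ‖z‖)) fun z => Real.log_nonneg (le_max_left _ _)
  have hen := energy_one B φ (fun x _ y _ h h2 => h (hφinj h2)) hD1 hBD hBlam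
  have hdisc := disc_ineq2 v hp hvp (e := e) B T hBi hBσ hTB hvT φ
  -- counting
  set a := T.card with ha
  have hSw : Nat.card {σ : Gal(K/ℚ) // v (σ β - 1) ^ e ≤ v (p : K)} ≤ w * a := by
    let F : ℂ → ℕ := fun z => if z ∈ T.image φ then 1 else 0
    have h1 : ∑ τ : K →ₐ[ℚ] ℂ, F (τ β) = w * ∑ τ : L →ₐ[ℚ] ℂ, F (τ γ) := by
      rw [sum_embeddings' β F, smul_eq_mul]
    have h2 : ∑ τ : L →ₐ[ℚ] ℂ, F (τ γ) ≤ a := by
      rw [← Finset.card_filter]
      calc ((Finset.univ : Finset (L →ₐ[ℚ] ℂ)).filter (fun τ => τ γ ∈ T.image φ)).card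
          = (((Finset.univ : Finset (L →ₐ[ℚ] ℂ)).filter (fun τ => τ γ ∈ T.image φ)).image
              (fun τ => τ γ)).card := (Finset.card_image_of_injective _ (CInj_gen β)).symm
        _ ≤ (T.image φ).card := by
          apply Finset.card_le_card
          intro z hz
          obtain ⟨τ, hτ, rfl⟩ := Finset.mem_image.mp hz
          exact (Finset.mem_filter.mp hτ).2
        _ ≤ a := Finset.card_image_le
    have h3 : Nat.card {σ : Gal(K/ℚ) // v (σ β - 1) ^ e ≤ v (p : K)} ≤
        ∑ τ : K →ₐ[ℚ] ℂ, F (τ β) := by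
      rw [← Finset.card_filter]
      rw [Nat.card_eq_fintype_card, Fintype.card_subtype]
      rw [← Finset.card_image_of_injective
        ((Finset.univ : Finset Gal(K/ℚ)).filter (fun σ => v (σ β - 1) ^ e ≤ v (p : K)))
        (f := fun σ : Gal(K/ℚ) => φ.comp (σ : K →ₐ[ℚ] K)) ?_]
      · apply Finset.card_le_card
        intro τ hτ
        obtain ⟨σ, hσ, rfl⟩ := Finset.mem_image.mp hτ
        rw [Finset.mem_filter]
        refine ⟨Finset.mem_univ _, ?_⟩
        exact Finset.mem_image.mpr ⟨σ β, hS σ (Finset.mem_filter.mp hσ).2, rfl⟩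
      · intro σ τ h
        apply AlgEquiv.ext
        intro x
        exact hφinj (DFunLike.congr_fun h x)
    rw [h1] at h3
    exact h3.trans (Nat.mul_le_mul_left w h2)
  have hN : Nat.card Gal(K/ℚ) = finrank ℚ K := IsGalois.card_aut_eq_finrank ℚ K
  have hm1 : 1 ≤ m := by
    rcases Nat.eq_zero_or_pos m with h | h
    · rw [h, zero_mul, hN] at hcard
      have : 0 < finrank ℚ K := finrank_pos
      omega
    · exact h
  have hDa : D ≤ m * a := by
    have h1 : D * w ≤ (m * a) * w := by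
      calc D * w = finrank ℚ K := hDw
        _ = Nat.card Gal(K/ℚ) := hN.symm
        _ ≤ m * Nat.card {σ : Gal(K/ℚ) // v (σ β - 1) ^ e ≤ v (p : K)} := hcard
        _ ≤ m * (w * a) := Nat.mul_le_mul_left _ hSw
        _ = (m * a) * w := by ring
    exact Nat.le_of_mul_le_mul_right h1 hw1
  have he0 : (0:ℝ) ≤ e := Nat.cast_nonneg _
  have h1 : (a : ℝ) * (a - 1) * Real.log p ≤ e * (2 * D * lam γ + D + D * Real.log D) :=
    hdisc.trans (mul_le_mul_of_nonneg_left hen he0)
  have hlp : Real.log 2 ≤ Real.log p :=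
    Real.log_le_log (by norm_num) (by exact_mod_cast hp.two_le)
  have h2 := hdob L γ hγi hγ0 hγroot (CInj_gen β)
  have h3 := numericF hc hD1 hm1 he1 (A := lam γ) hlp hDa h1 h2
  have h4 : lam β = w * lam γ := lam_gen β
  have hw0 : (0:ℝ) < w := by exact_mod_cast hw1
  have h6 := mul_le_mul_of_nonneg_left h3 hw0.le
  rw [← h4] at h6
  refine le_trans (le_of_eq ?_) h6
  have h7 : (finrank ℚ K : ℝ) = D * w := by
    rw [← hDw]; push_cast; ring
  rw [h7]
  ring

end Pool.Agent.K4H76.Leh
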